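import Pool.Agent.Q37.GraphCurve.BridgeThm

/-!
MP_764677 (Q1), proof: for every graph curve of a finite connected graph `G` whose connected
subgraphs `H` satisfy `d(H) ≥ 2 g(H) + 1`, the graded Betti number `b_{n-1,n}` is the number of
bridges of `G`. Planarity and the bounds on the degrees are not used.
-/

open Q37.GraphCurve

namespace Pool.Agent.Results.MP_764677_ag.BridgeCount

universe u

/-- `b_{n-1,n}(Ḡ) = #{bridges of G}` for every graph curve `Ḡ ⊂ ℙⁿ`, `n = d - g`. -/
theorem result {K : Type u} [Field K] {V : Type} [Finite V] (G : SimpleGraph V)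
    (hconn : G.Connected) (hsparse : IsSparse G)
    (n : ℕ) (hn : (n : ℤ) = Nat.card V - genus G)
    (L : V → Submodule K (Fin (n + 1) → K)) (hL : IsGraphCurve G L) :
    betti (curveIdeal L) (n - 1) 0 =
      {e | e ∈ G.edgeSet ∧ ¬ (G.deleteEdges {e}).Connected}.ncard := by
  classical
  haveI := Fintype.ofFinite V
  have hC : Config G L :=
    ⟨hL.line, fun u v huv => (hL.meet u v huv.ne).1 huv, hL.noTriple,
      fun S hS => degen_of_sparse hsparse S hS⟩
  have h1 : 2 * G.edgeSet.ncard = ed G Finset.univ Finset.univ := by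
    have := two_mul_edges G Finset.univ
    rwa [restr_univ] at this
  have h2 : Module.finrank K ((Finset.univ : Finset V).sup L : Submodule K (Fin (n + 1) → K)) =
      n + 1 := by
    rw [Finset.sup_univ_eq_iSup, hL.spans, finrank_top, Module.finrank_fin_fun]
  have hgood : Good G L Finset.univ := by
    unfold Good
    rw [h2, ← h1, Finset.card_univ, ← Nat.card_eq_fintype_card]
    unfold genus at hn
    omega
  have hN : 2 ≤ n + 1 := by
    obtain ⟨v⟩ := hconn.nonempty
    have h3 := Submodule.finrank_le (L v)
    rwa [hL.line v, Module.finrank_fin_fun] at h3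
  have h4 := betti_eq hN hconn hC hL.distinct hgood
  have h5 : n + 1 - 2 = n - 1 := by omega
  rwa [h5] at h4

end Pool.Agent.Results.MP_764677_ag.BridgeCount
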